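import Pool.Agent.H37.CPX.Targets

/-!
# Board cpx_modules, row NUB: sizes of the boxes
-/

set_option autoImplicit false

open Finset Pool.Agent.H37.CPX

namespace Pool.Agent.H26.CPX

/-- the inequality between the exponents -/
theorem expo (m k q r z L : ℕ) (hz : 1 ≤ z) (hr : 50 * (L + 5) ^ 2 ≤ r) (hrq : r ≤ q) :
    7 + (L + q) * (2 * (k + 4) * z) + 18 * z + m +
      (4 * (k + 4) * q * z + 4 * L * z + 5 * z + 8 + r) < m + (8 * k + 40) * q * z + r + 20 := by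
  have h1 : 4 * L ≤ q := by nlinarith
  have h2 : 23 ≤ q := by nlinarith
  have h3 : 4 * (L * z) ≤ q * z := by nlinarith
  have h4 : 23 * z ≤ q * z := Nat.mul_le_mul_right z h2
  have h5 : (k + 4) * (4 * (L * z)) ≤ (k + 4) * (q * z) := Nat.mul_le_mul_left _ h3
  have e1 : (L + q) * (2 * (k + 4) * z) = 2 * ((k + 4) * (L * z)) + 2 * ((k + 4) * (q * z)) := by
    ring
  have e2 : 4 * (k + 4) * q * z = 4 * ((k + 4) * (q * z)) := by ring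
  have e3 : (8 * k + 40) * q * z = 8 * ((k + 4) * (q * z)) + 8 * (q * z) := by ring
  have e4 : (k + 4) * (4 * (L * z)) = 4 * ((k + 4) * (L * z)) := by ring
  have e5 : 4 * L * z = 4 * (L * z) := by ring
  rw [e1, e2, e3, e5]
  rw [e4] at h5
  omega

theorem core (N m k w0 z lam t nl nh q r : ℕ) (cA cB : ℝ) (hN1 : 1 ≤ N) (hz : 1 ≤ z)
    (hr1 : 1 ≤ r) (hrq : r ≤ q) (hlam : 64 * N * z * q ^ (k + 7) ≤ 2 ^ lam)
    (hr : 50 * (lam + 5) ^ 2 ≤ r)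
    (ht : 2 ^ (m + (8 * k + 40) * q * z + r + 20) ≤ r ^ ((k + 2) * w0))
    (htN : t ≤ N) (htz : t ≤ 2 * (k + 4) * z) (hnn : nl + nh ≤ 9 * z) :
    (0 ≤ cA → 0 ≤ cB → (q : ℝ) ^ (N - t) ≤ 2 ^ (3 * z + 1) * cA →
      ((2 : ℝ) ^ q) ^ (N - t) ≤ 2 ^ (2 * z + 5 + 4 * lam * z + r) * cB →
      (1 / 2) ^ (4 * (k + 4) * q * z + 4 * lam * z + 5 * z + 8 + r) *
        ((q : ℝ) ^ N * ((2 : ℝ) ^ q) ^ N) ≤ cA * cB) ∧
    4 * ((2 : ℝ) ^ m / (r : ℝ) ^ ((k + 2) * w0) * ((q : ℝ) ^ N * ((2 : ℝ) ^ q) ^ N)) ≤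
      4 * (8 * N * (q : ℝ) * 2 ^ q) ^ (2 * (k + 4) * z) * 4 ^ (9 * z) *
        ((2 : ℝ) ^ m / (r : ℝ) ^ ((k + 2) * w0) * ((q : ℝ) ^ N * ((2 : ℝ) ^ q) ^ N)) *
        (1 / (8 * N * (q : ℝ) * 2 ^ q)) ^ t * (1 / 4) ^ (nl + nh) ∧
    32 * (4 * (8 * N * (q : ℝ) * 2 ^ q) ^ (2 * (k + 4) * z) * 4 ^ (9 * z) *
        ((2 : ℝ) ^ m / (r : ℝ) ^ ((k + 2) * w0) * ((q : ℝ) ^ N * ((2 : ℝ) ^ q) ^ N))) <
      (1 / 2) ^ (4 * (k + 4) * q * z + 4 * lam * z + 5 * z + 8 + r) *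
        ((q : ℝ) ^ N * ((2 : ℝ) ^ q) ^ N) ∧
    (1 / 2 : ℝ) ^ (4 * (k + 4) * q * z + 4 * lam * z + 5 * z + 8 + r) ≤ 1 / 16 ∧
    4 * ((2 : ℝ) ^ m / (r : ℝ) ^ ((k + 2) * w0)) <
      (1 / 2) ^ (4 * (k + 4) * q * z + 4 * lam * z + 5 * z + 8 + r) := by
  have hq1 : 1 ≤ q := hr1.trans hrq
  have hq0 : (0 : ℝ) < q := by exact_mod_cast hq1
  have hr0 : (0 : ℝ) < r := by exact_mod_cast hr1
  -- the volume
  obtain ⟨V, hV⟩ : ∃ V : ℝ, V = (q : ℝ) ^ N * ((2 : ℝ) ^ q) ^ N := ⟨_, rfl⟩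
  have hV0 : 0 < V := by rw [hV]; positivity
  obtain ⟨E1, hE1⟩ : ∃ E1, E1 = 4 * (k + 4) * q * z := ⟨_, rfl⟩
  have hVle : V ≤ (q : ℝ) ^ (N - t) * ((2 : ℝ) ^ q) ^ (N - t) * 2 ^ E1 := by
    have h1 : V = (q : ℝ) ^ (N - t) * ((2 : ℝ) ^ q) ^ (N - t) * ((q : ℝ) * 2 ^ q) ^ t := by
      rw [hV, mul_pow, ← Nat.sub_add_cancel htN, pow_add, pow_add, Nat.sub_add_cancel htN]
      ring
    rw [h1]
    apply mul_le_mul_of_nonneg_left _ (by positivity)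
    have h2 : (q : ℝ) ≤ 2 ^ q := by exact_mod_cast Nat.lt_two_pow_self.le
    calc ((q : ℝ) * 2 ^ q) ^ t ≤ ((2 : ℝ) ^ q * 2 ^ q) ^ t := by gcongr
      _ = 2 ^ (2 * q * t) := by rw [← pow_add, ← pow_mul]; congr 1; ring
      _ ≤ 2 ^ E1 := by
        apply pow_le_pow_right₀ (by norm_num)
        rw [hE1]
        calc 2 * q * t ≤ 2 * q * (2 * (k + 4) * z) := Nat.mul_le_mul_left _ htz
          _ = 4 * (k + 4) * q * z := by ring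
  rw [← hV]
  -- the constant `Lam`
  obtain ⟨Λ, hΛ⟩ : ∃ Λ : ℝ, Λ = 8 * N * (q : ℝ) * 2 ^ q := ⟨_, rfl⟩
  have hΛ1 : 1 ≤ Λ := by
    have h1 : (1 : ℝ) ≤ N := by exact_mod_cast hN1
    have h2 : (1 : ℝ) ≤ q := by exact_mod_cast hq1
    have h3 : (1 : ℝ) ≤ 2 ^ q := one_le_pow₀ (by norm_num)
    rw [hΛ]
    have h4 : (1 : ℝ) ≤ 8 * N := by linarith
    exact one_le_mul_of_one_le_of_one_le (one_le_mul_of_one_le_of_one_le h4 h2) h3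
  have hΛ2 : Λ ≤ 2 ^ (lam + q) := by
    have h1 : 8 * N * q ≤ 2 ^ lam := by
      refine le_trans ?_ hlam
      have h2 : q ≤ q ^ (k + 7) := Nat.le_self_pow (by omega) q
      calc 8 * N * q ≤ 64 * N * q := by
            apply Nat.mul_le_mul_right
            omega
        _ = 64 * N * 1 * q := by ring
        _ ≤ 64 * N * z * q ^ (k + 7) := by
            apply Nat.mul_le_mul _ h2
            exact Nat.mul_le_mul_left _ hz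
    have h2 : (8 : ℝ) * N * q ≤ 2 ^ lam := by exact_mod_cast h1
    rw [hΛ, pow_add]
    exact mul_le_mul_of_nonneg_right h2 (by positivity)
  rw [← hΛ]
  have hΛ0 : 0 < Λ := by linarith
  obtain ⟨W, hW⟩ : ∃ W : ℝ, W = (r : ℝ) ^ ((k + 2) * w0) := ⟨_, rfl⟩
  rw [← hW]
  have hW0 : 0 < W := by rw [hW]; positivity
  have hWge : (2 : ℝ) ^ (m + (8 * k + 40) * q * z + r + 20) ≤ W := by
    rw [hW]
    exact_mod_cast ht
  rw [← hE1]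
  obtain ⟨E2, hE2⟩ : ∃ E2, E2 = 4 * lam * z + 5 * z + 8 + r := ⟨_, rfl⟩
  have hEe : E1 + 4 * lam * z + 5 * z + 8 + r = E1 + E2 := by rw [hE2]; ring
  rw [hEe]
  have hexp := expo m k q r z lam hz hr hrq
  rw [← hE1] at hexp
  have hEe' : E1 + 4 * lam * z + 5 * z + 8 + r = E1 + E2 := hEe
  rw [hEe'] at hexp
  obtain ⟨K, hK⟩ : ∃ K, K = 2 * (k + 4) * z := ⟨_, rfl⟩
  rw [← hK] at htz hexp ⊢
  have hhalf : ∀ n : ℕ, ((1 : ℝ) / 2) ^ n * 2 ^ n = 1 := by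
    intro n
    rw [← mul_pow]
    norm_num
  have hτ : 0 < (2 : ℝ) ^ m / W * V := by positivity
  have h2' : 4 * ((2 : ℝ) ^ m / W * V) ≤
      4 * Λ ^ K * 4 ^ (9 * z) * ((2 : ℝ) ^ m / W * V) * (1 / Λ) ^ t * (1 / 4) ^ (nl + nh) := by
    have h1 : 1 ≤ Λ ^ K * (1 / Λ) ^ t := by
      rw [one_div, inv_pow, ← div_eq_mul_inv, le_div_iff₀ (by positivity), one_mul]
      exact pow_le_pow_right₀ hΛ1 htz
    have h2 : (1 : ℝ) ≤ 4 ^ (9 * z) * (1 / 4) ^ (nl + nh) := by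
      rw [one_div, inv_pow, ← div_eq_mul_inv, le_div_iff₀ (by positivity), one_mul]
      exact pow_le_pow_right₀ (by norm_num) hnn
    have h3 := one_le_mul_of_one_le_of_one_le h1 h2
    calc 4 * ((2 : ℝ) ^ m / W * V) = 4 * ((2 : ℝ) ^ m / W * V) * 1 := by rw [mul_one]
      _ ≤ 4 * ((2 : ℝ) ^ m / W * V) *
          (Λ ^ K * (1 / Λ) ^ t * (4 ^ (9 * z) * (1 / 4) ^ (nl + nh))) :=
        mul_le_mul_of_nonneg_left h3 (by positivity)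
      _ = _ := by ring
  have h20 : 4 * ((2 : ℝ) ^ m / W * V) ≤ 4 * Λ ^ K * 4 ^ (9 * z) * ((2 : ℝ) ^ m / W * V) := by
    have h1 : 1 ≤ Λ ^ K := one_le_pow₀ hΛ1
    have h2 : (1 : ℝ) ≤ 4 ^ (9 * z) := one_le_pow₀ (by norm_num)
    have h3 := one_le_mul_of_one_le_of_one_le h1 h2
    calc 4 * ((2 : ℝ) ^ m / W * V) = 4 * ((2 : ℝ) ^ m / W * V) * 1 := by rw [mul_one]
      _ ≤ 4 * ((2 : ℝ) ^ m / W * V) * (Λ ^ K * 4 ^ (9 * z)) :=
        mul_le_mul_of_nonneg_left h3 (by positivity)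
      _ = _ := by ring
  have h3' : 32 * (4 * Λ ^ K * 4 ^ (9 * z) * ((2 : ℝ) ^ m / W * V)) <
      (1 / 2) ^ (E1 + E2) * V := by
    have h1 : (2 : ℝ) ^ 7 * Λ ^ K * 4 ^ (9 * z) * 2 ^ m * 2 ^ (E1 + E2) < W := by
      have h4 : (4 : ℝ) ^ (9 * z) = 2 ^ (18 * z) := by
        rw [show (4 : ℝ) = 2 ^ 2 by norm_num, ← pow_mul]
        congr 1
        ring
      calc (2 : ℝ) ^ 7 * Λ ^ K * 4 ^ (9 * z) * 2 ^ m * 2 ^ (E1 + E2)
          ≤ (2 : ℝ) ^ 7 * (2 ^ (lam + q)) ^ K * 4 ^ (9 * z) * 2 ^ m * 2 ^ (E1 + E2) := by gcongr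
        _ = 2 ^ (7 + (lam + q) * K + 18 * z + m + (E1 + E2)) := by
          rw [h4, ← pow_mul, ← pow_add, ← pow_add, ← pow_add, ← pow_add]
        _ < 2 ^ (m + (8 * k + 40) * q * z + r + 20) :=
          pow_lt_pow_right₀ (by norm_num) hexp
        _ ≤ W := hWge
    have h5 : (2 : ℝ) ^ 7 * Λ ^ K * 4 ^ (9 * z) * 2 ^ m / W < (1 / 2) ^ (E1 + E2) := by
      rw [div_lt_iff₀ hW0]
      calc (2 : ℝ) ^ 7 * Λ ^ K * 4 ^ (9 * z) * 2 ^ m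
          = (1 / 2) ^ (E1 + E2) *
            (2 ^ 7 * Λ ^ K * 4 ^ (9 * z) * 2 ^ m * 2 ^ (E1 + E2)) := by
            rw [mul_comm ((1 / 2 : ℝ) ^ (E1 + E2)), mul_assoc _ ((2 : ℝ) ^ (E1 + E2)),
              mul_comm ((2 : ℝ) ^ (E1 + E2)), hhalf, mul_one]
        _ < (1 / 2) ^ (E1 + E2) * W := by
            apply mul_lt_mul_of_pos_left h1
            positivity
    calc 32 * (4 * Λ ^ K * 4 ^ (9 * z) * ((2 : ℝ) ^ m / W * V))
        = (2 : ℝ) ^ 7 * Λ ^ K * 4 ^ (9 * z) * 2 ^ m / W * V := by ring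
      _ < (1 / 2) ^ (E1 + E2) * V := mul_lt_mul_of_pos_right h5 hV0
  refine ⟨?_, h2', h3', ?_, ?_⟩
  · intro hA hB h1 h2
    have h3 : (q : ℝ) ^ (N - t) * ((2 : ℝ) ^ q) ^ (N - t) ≤ 2 ^ E2 * (cA * cB) := by
      calc (q : ℝ) ^ (N - t) * ((2 : ℝ) ^ q) ^ (N - t)
          ≤ (2 ^ (3 * z + 1) * cA) * (2 ^ (2 * z + 5 + 4 * lam * z + r) * cB) :=
            mul_le_mul h1 h2 (by positivity) (by positivity)
        _ = 2 ^ (3 * z + 1 + (2 * z + 5 + 4 * lam * z + r)) * (cA * cB) := by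
            rw [pow_add (2 : ℝ) (3 * z + 1)]
            ring
        _ ≤ 2 ^ E2 * (cA * cB) := by
            apply mul_le_mul_of_nonneg_right _ (mul_nonneg hA hB)
            apply pow_le_pow_right₀ (by norm_num)
            rw [hE2]
            omega
    calc (1 / 2 : ℝ) ^ (E1 + E2) * V
        ≤ (1 / 2 : ℝ) ^ (E1 + E2) *
          ((q : ℝ) ^ (N - t) * ((2 : ℝ) ^ q) ^ (N - t) * 2 ^ E1) :=
          mul_le_mul_of_nonneg_left hVle (by positivity)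
      _ ≤ (1 / 2 : ℝ) ^ (E1 + E2) * (2 ^ E2 * (cA * cB) * 2 ^ E1) := by
          apply mul_le_mul_of_nonneg_left _ (by positivity)
          exact mul_le_mul_of_nonneg_right h3 (by positivity)
      _ = ((1 / 2 : ℝ) ^ (E1 + E2) * 2 ^ (E1 + E2)) * (cA * cB) := by
          rw [pow_add (2 : ℝ) E1]
          ring
      _ = cA * cB := by rw [hhalf, one_mul]
  · calc (1 / 2 : ℝ) ^ (E1 + E2) ≤ (1 / 2) ^ 4 := by
          apply pow_le_pow_of_le_one (by norm_num) (by norm_num)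
          rw [hE2]
          omega
      _ = 1 / 16 := by norm_num
  · have h4 : 0 < 4 * Λ ^ K * 4 ^ (9 * z) * ((2 : ℝ) ^ m / W * V) := by positivity
    have h5 : 4 * ((2 : ℝ) ^ m / W * V) < (1 / 2) ^ (E1 + E2) * V := by linarith
    have h6 : 4 * ((2 : ℝ) ^ m / W) * V < (1 / 2) ^ (E1 + E2) * V := by
      rw [mul_assoc]
      exact h5
    exact lt_of_mul_lt_mul_right h6 hV0.le

theorem pf_NUB : S_NUB := by
  intro N m k w0 P z lam t nl nh cA cB hN htN htz hnn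
  have hP := hN.hP
  have ht := hN.ht
  have hqr : P ^ 16 = P ^ 8 * P ^ 8 := by rw [← pow_add]
  have hr1 : 1 ≤ P ^ 8 := Nat.one_le_pow _ _ (by omega)
  have hrq : P ^ 8 ≤ P ^ 16 := by rw [hqr]; exact Nat.le_mul_of_pos_left _ hr1
  have hPW : P ^ (8 * (k + 2) * w0) = (P ^ 8) ^ ((k + 2) * w0) := by
    rw [← pow_mul]
    congr 1
    ring
  rw [hPW] at ht
  have h := core N m k w0 z lam t nl nh (P ^ 16) (P ^ 8) cA cB hN.hN hN.hz hr1 hrq hN.hlam hN.hr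
    ht htN htz hnn
  rw [Nat.cast_pow, Nat.cast_pow] at h
  exact h

end Pool.Agent.H26.CPX
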